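import Pool.Agent.Helper3.SP.Ord

/-!
# The fine order is directed closed
-/

namespace Pool.Agent.Helper3.SP

open Cardinal Set

variable {A L : Type} [LinearOrder A] [LinearOrder L]

theorem dirClosed (h : Hyp A L) : DirClosed #A (PF A L) := by
  intro S hS hdir
  obtain ⟨m, hm⟩ := h.bddA ((fun p : PF A L => p.1.len) '' S) (mk_image_le.trans_lt hS)
  have hm' : ∀ p ∈ S, p.1.len < m := fun p hp => hm _ ⟨p, hp, rfl⟩
  let r : RC A L :=
    { len := m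
      x := {a | ∃ p ∈ S, a < p.1.len ∧ a ∈ p.1.x}
      S := ⋃ p ∈ S, p.1.S
      K := ⋃ p ∈ S, p.1.K }
  have hr : Sm r := by
    constructor
    · exact (card_biUnion_lt_iff_forall_of_isRegular h.reg hS).2 fun p _ => p.2.1
    · exact (card_biUnion_lt_iff_forall_of_isRegular h.reg hS).2 fun p _ => p.2.2
  have hrS : ∀ j b, (j, b) ∈ r.S ↔ ∃ p ∈ S, (j, b) ∈ p.1.S := by
    intro j b
    simp only [r, mem_iUnion, exists_prop]
  have hrK : ∀ j l, (j, l) ∈ r.K ↔ ∃ p ∈ S, (j, l) ∈ p.1.K := by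
    intro j b
    simp only [r, mem_iUnion, exists_prop]
  have hx : ∀ p ∈ S, ∀ a < p.1.len, (a ∈ r.x ↔ a ∈ p.1.x) := by
    intro p hp a ha
    constructor
    · rintro ⟨p', hp', ha', hax⟩
      obtain ⟨q, -, hq1, hq2⟩ := hdir p hp p' hp'
      exact (hq1.1 a ha).1 ((hq2.1 a ha').2 hax)
    · exact fun hax => ⟨p, hp, ha, hax⟩
  have hfin : ∀ p ∈ S, {a | a < p.1.len ∧ ¬ (a ∈ r.x ↔ a ∈ p.1.x)}.Finite := by
    intro p hp
    refine Set.finite_empty.subset ?_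
    rintro a ⟨ha, hn⟩
    exact (hn (hx p hp a ha)).elim
  have key : ∀ i : Ix A L, ∀ p ∈ S, ∀ b, (i, b) ∈ r.S → (i, b) ∉ p.1.S → ∀ l, (i, l) ∈ p.1.K →
      Frc i r l b := by
    intro i
    induction i using wf_Des.induction with
    | _ i ih =>
      intro p hp b hb hb' l hl
      obtain ⟨p', hp', hbp'⟩ := (hrS i b).1 hb
      obtain ⟨q, hq, hq1, hq2⟩ := hdir p hp p' hp'
      have h1 : (i, b) ∈ q.1.S := (hq2.2.2.2 i trivial).1 b hbp'
      have h2 : Frc i q.1 l b := (hq1.2.2.2 i trivial).2.2 b h1 hb' l hl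
      refine Frc.mono ?_ h2
      exact ⟨(hm' q hq).le, hfin q hq, fun j hj => ⟨fun b hb => (hrS j b).2 ⟨q, hq, hb⟩,
        fun l hl => (hrK j l).2 ⟨q, hq, hl⟩, fun b hb hb' l hl => ih j hj q hq b hb hb' l hl⟩⟩
  refine ⟨⟨r, hr⟩, fun p hp => ⟨hx p hp, (hm' p hp).le, hfin p hp, fun j _ => ?_⟩⟩
  exact ⟨fun b hb => (hrS j b).2 ⟨p, hp, hb⟩, fun l hl => (hrK j l).2 ⟨p, hp, hl⟩,
    fun b hb hb' l hl => key j p hp b hb hb' l hl⟩

end Pool.Agent.Helper3.SP
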